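import Mathlib

namespace Pool.Agent.H.MP_8f8c07_co

def AbPow (k : ℕ) (y : List Bool) : Prop :=
  ∃ ws : List (List Bool), ws.length = k ∧ ws.flatten = y ∧ ∀ u ∈ ws, u ≠ [] ∧ ∀ v ∈ ws, u.Perm v

def AbFree (k : ℕ) (w : List Bool) : Prop := ∀ y, y <:+: w → ¬ AbPow k y

def Factor (y : List Bool) (x : ℕ → Bool) : Prop :=
  ∃ s, ∀ i (hi : i < y.length), x (s + i) = y[i]

def im (c : Bool) : List Bool := if c then [true, false, true] else [false, false, false, true, false]

def hh (w : List Bool) : List Bool := w.flatMap im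

lemma hh_append (u v : List Bool) : hh (u ++ v) = hh u ++ hh v := by simp [hh]

lemma hh_cons (c : Bool) (v : List Bool) : hh (c :: v) = im c ++ hh v := by simp [hh]

def R (y z : List Bool) (p q : ℤ) : Prop :=
  (y.count false : ℤ) = 4 * z.count false + z.count true + p ∧
  (y.count true : ℤ) = z.count false + 2 * z.count true + q

def T (p q : ℤ) : Prop := (p = 0 ∧ q = 0) ∨ (p = 1 ∧ q = 0) ∨ (p = 2 ∧ q = 0) ∨ (p = -1 ∧ q = -1) ∨
  (p = -1 ∧ q = 0) ∨ (p = 1 ∧ q = 1)

lemma dec (w : List Bool) : ∀ y, y <+: hh w → ∃ z p q, z <+: w ∧ R y z p q ∧ T p q := by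
  induction w with
  | nil =>
    intro y hy
    simp only [hh, List.flatMap_nil, List.prefix_nil] at hy
    subst hy
    exact ⟨[], 0, 0, by simp, by simp [R], by simp [T]⟩
  | cons c w ih =>
    intro y hy
    rw [hh_cons] at hy
    by_cases hl : (im c).length ≤ y.length
    · obtain ⟨y', rfl⟩ := List.prefix_of_prefix_length_le (List.prefix_append _ _) hy hl
      obtain ⟨z, p, q, h1, h2, h3⟩ := ih y' ((List.prefix_append_right_inj _).1 hy)
      refine ⟨c :: z, p, q, (List.prefix_cons_inj c).2 h1, ?_, h3⟩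
      obtain ⟨a, b⟩ := h2
      cases c <;> simp [R, im, List.count_cons] <;> constructor <;> omega
    · have h1 : y <+: im c := List.prefix_of_prefix_length_le hy (List.prefix_append _ _) (by omega)
      have h0 : ([] : List Bool) <+: c :: w := List.nil_prefix
      have h2 : [c] <+: c :: w := by simp
      rw [List.prefix_iff_eq_take] at h1
      generalize y.length = n at h1 hl
      subst h1
      cases c
      · simp only [im, Bool.false_eq_true, if_false, List.length_cons, List.length_nil] at hl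
        have : n < 5 := by omega
        interval_cases n
        · exact ⟨[], 0, 0, h0, by simp [R], by simp [T]⟩
        · exact ⟨[], 1, 0, h0, by simp [R, im], by simp [T]⟩
        · exact ⟨[], 2, 0, h0, by simp [R, im], by simp [T]⟩
        · exact ⟨[false], -1, -1, h2, by simp [R, im], by simp [T]⟩
        · exact ⟨[false], -1, 0, h2, by simp [R, im], by simp [T]⟩
      · simp only [im, if_true, List.length_cons, List.length_nil] at hl
        have : n < 3 := by omega
        interval_cases n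
        · exact ⟨[], 0, 0, h0, by simp [R], by simp [T]⟩
        · exact ⟨[true], -1, -1, h2, by simp [R, im], by simp [T]⟩
        · exact ⟨[], 1, 1, h0, by simp [R, im], by simp [T]⟩

lemma len_eq (z : List Bool) : z.length = z.count false + z.count true := by
  induction z with
  | nil => simp
  | cons c z ih => rw [List.length_cons, ih]; cases c <;> simp <;> omega

lemma perm_of (u v : List Bool) (h1 : u.count false = v.count false)
    (h2 : u.count true = v.count true) : u.Perm v := by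
  rw [List.perm_iff_count]
  intro c
  cases c
  · exact h1
  · exact h2

lemma Tval {p q : ℤ} (h : T p q) : (p + 3 * q) % 7 ≠ 5 := by
  unfold T at h; omega

lemma Tinj {p q p' q' : ℤ} (h : T p q) (h' : T p' q') (e : (p + 3 * q) % 7 = (p' + 3 * q') % 7) :
    p = p' ∧ q = q' := by
  unfold T at h h'; omega

lemma val {y z : List Bool} {p q : ℤ} (h : R y z p q) :
    (p + 3 * q) % 7 = ((y.count false : ℤ) + 3 * y.count true) % 7 := by
  unfold R at h; omega

lemma key (F D : ℤ) (h0 : F % 7 ≠ 5) (h1 : (F + D) % 7 ≠ 5) (h2 : (F + 2 * D) % 7 ≠ 5)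
    (h3 : (F + 3 * D) % 7 ≠ 5) (h4 : (F + 4 * D) % 7 ≠ 5) (h5 : (F + 5 * D) % 7 ≠ 5)
    (h6 : (F + 6 * D) % 7 ≠ 5) : D % 7 = 0 := by
  have : D % 7 = 0 ∨ D % 7 = 1 ∨ D % 7 = 2 ∨ D % 7 = 3 ∨ D % 7 = 4 ∨ D % 7 = 5 ∨ D % 7 = 6 := by
    omega
  rcases this with h | h | h | h | h | h | h <;> omega

lemma ext {w y e z z' : List Bool} {p q p' q' : ℤ} (h : z <+: w) (h' : z' <+: w) (r : R y z p q)
    (r' : R (y ++ e) z' p' q') (t : T p q) (t' : T p' q')
    (hD : ((e.count false : ℤ) + 3 * e.count true) % 7 = 0) :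
    ∃ d, z' = z ++ d ∧ e.count false = 4 * d.count false + d.count true ∧
      e.count true = d.count false + 2 * d.count true := by
  have v := val r
  have v' := val r'
  unfold R at r r'
  simp only [List.count_append] at r' v'
  push_cast at r' v'
  obtain ⟨rfl, rfl⟩ := Tinj t t' (by omega)
  obtain ⟨d, rfl⟩ := List.prefix_of_prefix_length_le h h' (by rw [len_eq, len_eq]; omega)
  simp only [List.count_append] at r'
  push_cast at r'
  exact ⟨d, rfl, by omega, by omega⟩

theorem abfree (w : List Bool) (hw : AbFree 6 w) : AbFree 6 (hh w) := by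
  rintro y ⟨s, t, hy⟩ ⟨ws, hl, rfl, hp⟩
  match ws, hl with
  | [w1, w2, w3, w4, w5, w6], _ =>
    have n1 : w1 ≠ [] := (hp w1 (by simp)).1
    have p1 := (hp w1 (by simp)).2
    have c2 := List.perm_iff_count.1 (p1 w2 (by simp))
    have c3 := List.perm_iff_count.1 (p1 w3 (by simp))
    have c4 := List.perm_iff_count.1 (p1 w4 (by simp))
    have c5 := List.perm_iff_count.1 (p1 w5 (by simp))
    have c6 := List.perm_iff_count.1 (p1 w6 (by simp))
    have hpos : 0 < w1.count false + w1.count true := by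
      rw [← len_eq]; exact List.length_pos_iff.2 n1
    simp only [List.flatten_cons, List.flatten_nil, List.append_nil] at hy
    obtain ⟨z0, p0, q0, a0, b0, t0⟩ := dec w s ⟨_, by rw [← hy]; simp; rfl⟩
    obtain ⟨z1, p1, q1, a1, b1, t1⟩ := dec w (s ++ w1) ⟨_, by rw [← hy]; simp; rfl⟩
    obtain ⟨z2, p2, q2, a2, b2, t2⟩ := dec w (s ++ w1 ++ w2) ⟨_, by rw [← hy]; simp; rfl⟩
    obtain ⟨z3, p3, q3, a3, b3, t3⟩ := dec w (s ++ w1 ++ w2 ++ w3)
      ⟨_, by rw [← hy]; simp; rfl⟩
    obtain ⟨z4, p4, q4, a4, b4, t4⟩ := dec w (s ++ w1 ++ w2 ++ w3 ++ w4)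
      ⟨_, by rw [← hy]; simp; rfl⟩
    obtain ⟨z5, p5, q5, a5, b5, t5⟩ := dec w (s ++ w1 ++ w2 ++ w3 ++ w4 ++ w5)
      ⟨_, by rw [← hy]; simp; rfl⟩
    obtain ⟨z6, p6, q6, a6, b6, t6⟩ := dec w (s ++ w1 ++ w2 ++ w3 ++ w4 ++ w5 ++ w6)
      ⟨t, by rw [← hy]; simp⟩
    have hD : ((w1.count false : ℤ) + 3 * w1.count true) % 7 = 0 := by
      have f0 := val b0 ▸ Tval t0
      have f1 := val b1 ▸ Tval t1
      have f2 := val b2 ▸ Tval t2
      have f3 := val b3 ▸ Tval t3
      have f4 := val b4 ▸ Tval t4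
      have f5 := val b5 ▸ Tval t5
      have f6 := val b6 ▸ Tval t6
      simp only [List.count_append, ← c2, ← c3, ← c4, ← c5, ← c6] at f1 f2 f3 f4 f5 f6
      push_cast at f1 f2 f3 f4 f5 f6
      apply key _ _ f0
      · convert f1 using 2; ring
      · convert f2 using 2; ring
      · convert f3 using 2; ring
      · convert f4 using 2; ring
      · convert f5 using 2; ring
      · convert f6 using 2; ring
    obtain ⟨e1, rfl, g1, k1⟩ := ext a0 a1 b0 b1 t0 t1 hD
    obtain ⟨e2, rfl, g2, k2⟩ := ext a1 a2 b1 b2 t1 t2 (by rw [← c2, ← c2]; exact hD)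
    obtain ⟨e3, rfl, g3, k3⟩ := ext a2 a3 b2 b3 t2 t3 (by rw [← c3, ← c3]; exact hD)
    obtain ⟨e4, rfl, g4, k4⟩ := ext a3 a4 b3 b4 t3 t4 (by rw [← c4, ← c4]; exact hD)
    obtain ⟨e5, rfl, g5, k5⟩ := ext a4 a5 b4 b5 t4 t5 (by rw [← c5, ← c5]; exact hD)
    obtain ⟨e6, rfl, g6, k6⟩ := ext a5 a6 b5 b6 t5 t6 (by rw [← c6, ← c6]; exact hD)
    rw [← c2] at g2 k2
    rw [← c3] at g3 k3
    rw [← c4] at g4 k4
    rw [← c5] at g5 k5
    rw [← c6] at g6 k6
    obtain ⟨r, hr⟩ := a6
    have hc : ∀ e ∈ [e1, e2, e3, e4, e5, e6], w1.count false = 4 * e.count false + e.count true ∧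
        w1.count true = e.count false + 2 * e.count true := by
      intro e he
      simp only [List.mem_cons, List.not_mem_nil, or_false] at he
      rcases he with rfl | rfl | rfl | rfl | rfl | rfl <;> exact ⟨by assumption, by assumption⟩
    refine hw _ ⟨z0, r, ?_⟩ ⟨[e1, e2, e3, e4, e5, e6], rfl, rfl, fun e he => ⟨?_, fun e' he' => ?_⟩⟩
    · rw [← hr]; simp
    · rintro rfl
      have := hc _ he
      simp only [List.count_nil] at this
      omega
    · have h1 := hc e he
      have h2 := hc e' he'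
      clear * - h1 h2
      exact perm_of _ _ (by omega) (by omega)

end Pool.Agent.H.MP_8f8c07_co
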