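import Pool.Agent.H.MP_8f8c07_co.A

namespace Pool.Agent.H.MP_8f8c07_co

def W (n : ℕ) : List Bool := hh^[n] [false]

lemma W_succ (n : ℕ) : W (n + 1) = hh (W n) := Function.iterate_succ_apply' _ _ _

lemma hh_prefix {u v : List Bool} (h : u <+: v) : hh u <+: hh v := by
  obtain ⟨t, rfl⟩ := h
  rw [hh_append]; exact List.prefix_append _ _

lemma W_pre (n : ℕ) : W n <+: W (n + 1) := by
  induction n with
  | zero => decide
  | succ n ih => rw [W_succ, W_succ (n + 1), W_succ]; exact hh_prefix (W_succ n ▸ ih)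

lemma W_mono {m n : ℕ} (h : m ≤ n) : W m <+: W n := by
  induction h with
  | refl => exact List.prefix_refl _
  | step _ ih => exact ih.trans (W_pre _)

lemma hh_len (w : List Bool) : 3 * w.length ≤ (hh w).length := by
  induction w with
  | nil => simp
  | cons c w ih => rw [hh_cons]; cases c <;> simp [im] <;> omega

lemma W_len (n : ℕ) : n + 1 ≤ (W n).length := by
  induction n with
  | zero => decide
  | succ n ih => have := hh_len (W n); rw [W_succ]; omega

def x (i : ℕ) : Bool := (W i).getD i false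

lemma x_eq (n i : ℕ) (hi : i < (W n).length) : x i = (W n)[i] := by
  have h1 := W_len i
  have a := (W_mono (le_max_left i n)).getElem (i := i) (by omega)
  have b := (W_mono (le_max_right i n)).getElem hi
  rw [x, List.getD_eq_getElem _ _ (by omega), a, b]

def B (j : ℕ) : ℕ := (hh ((W j).take j)).length

lemma take_succ (j : ℕ) : (W (j + 1)).take (j + 1) = (W j).take j ++ [x j] := by
  have h1 := W_len j
  have h2 := W_len (j + 1)
  rw [List.take_succ_eq_append_getElem (by omega), ← x_eq (j + 1) j (by omega)]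
  congr 1
  obtain ⟨t, ht⟩ := W_pre j
  rw [← ht, List.take_append_of_le_length (by omega)]

lemma B_zero : B 0 = 0 := by simp [B, hh]

lemma B_succ (j : ℕ) : B (j + 1) = B j + (im (x j)).length := by
  rw [B, take_succ, hh_append, List.length_append, B]; simp [hh]

lemma x_B (j o : ℕ) (ho : o < (im (x j)).length) : x (B j + o) = (im (x j))[o] := by
  have h1 : hh ((W j).take j) ++ im (x j) <+: W (j + 2) := by
    have := hh_prefix (List.take_prefix (j + 1) (W (j + 1)))
    rw [take_succ, hh_append, ← W_succ] at this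
    simpa [hh] using this
  have hl : B j + o < (hh ((W j).take j) ++ im (x j)).length := by
    rw [List.length_append]; unfold B; omega
  rw [x_eq (j + 2) _ (lt_of_lt_of_le hl h1.length_le), ← h1.getElem hl,
    List.getElem_append_right (by unfold B; omega)]
  simp [B]

lemma S0 {j : ℕ} (h : x j = false) : x (B j) = false ∧ x (B j + 1) = false ∧ x (B j + 2) = false ∧
    x (B j + 3) = true ∧ x (B j + 4) = false ∧ B (j + 1) = B j + 5 := by
  have a := x_B j
  have b := B_succ j
  simp only [h] at a b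
  exact ⟨a 0 (by decide), a 1 (by decide), a 2 (by decide), a 3 (by decide), a 4 (by decide), b⟩

lemma S1 {j : ℕ} (h : x j = true) : x (B j) = true ∧ x (B j + 1) = false ∧ x (B j + 2) = true ∧
    B (j + 1) = B j + 3 := by
  have a := x_B j
  have b := B_succ j
  simp only [h] at a b
  exact ⟨a 0 (by decide), a 1 (by decide), a 2 (by decide), b⟩

lemma B_step (j : ℕ) : B j + 3 ≤ B (j + 1) := by
  cases h : x j
  · have := (S0 h).2.2.2.2.2; omega
  · have := (S1 h).2.2.2; omega

lemma B_mono : StrictMono B := strictMono_nat_of_lt_succ fun j => by have := B_step j; omega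

lemma B_add (j q : ℕ) : B j + 3 * q ≤ B (j + q) := by
  induction q with
  | zero => simp
  | succ q ih => have := B_step (j + q); rw [← add_assoc]; omega

lemma first (j : ℕ) : x (B j) = x j := by
  cases h : x j
  · exact (S0 h).1
  · exact (S1 h).1

lemma last (j t : ℕ) (ht : t + 1 = B (j + 1)) : x t = x j := by
  cases h : x j
  · have := S0 h; rw [show t = B j + 4 by omega]; exact this.2.2.2.2.1
  · have := S1 h; rw [show t = B j + 2 by omega]; exact this.2.2.1

lemma blk (t : ℕ) : ∃ j, B j ≤ t ∧ t < B (j + 1) := by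
  induction t with
  | zero => exact ⟨0, by simp [B_zero], by have := B_step 0; omega⟩
  | succ t ih =>
    obtain ⟨j, h1, h2⟩ := ih
    by_cases h : t + 1 < B (j + 1)
    · exact ⟨j, by omega, h⟩
    · exact ⟨j + 1, by omega, by have := B_step (j + 1); omega⟩

def F : ℕ → ZMod 7
  | 0 => 0
  | t + 1 => F t + if x t then 3 else 1

lemma F0 {j : ℕ} (h : x j = false) (hF : F (B j) = 0) : F (B j + 1) = 1 ∧ F (B j + 2) = 2 ∧
    F (B j + 3) = 3 ∧ F (B j + 4) = 6 ∧ F (B j + 5) = 0 := by
  obtain ⟨a, b, c, d, e, -⟩ := S0 h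
  simp only [F, a, b, c, d, e, hF]
  decide

lemma F1 {j : ℕ} (h : x j = true) (hF : F (B j) = 0) : F (B j + 1) = 3 ∧ F (B j + 2) = 4 ∧
    F (B j + 3) = 0 := by
  obtain ⟨a, b, c, -⟩ := S1 h
  simp only [F, a, b, c, hF]
  decide

lemma F_B (j : ℕ) : F (B j) = 0 := by
  induction j with
  | zero => rw [B_zero]; rfl
  | succ j ih =>
    cases h : x j
    · rw [(S0 h).2.2.2.2.2]; exact (F0 h ih).2.2.2.2
    · rw [(S1 h).2.2.2]; exact (F1 h ih).2.2

lemma cases_t (t : ℕ) : ∃ j, (x j = false ∧ (t = B j ∨ t = B j + 1 ∨ t = B j + 2 ∨ t = B j + 3 ∨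
    t = B j + 4)) ∨ (x j = true ∧ (t = B j ∨ t = B j + 1 ∨ t = B j + 2)) := by
  obtain ⟨j, h1, h2⟩ := blk t
  refine ⟨j, ?_⟩
  cases h : x j
  · have := (S0 h).2.2.2.2.2; left; exact ⟨rfl, by omega⟩
  · have := (S1 h).2.2.2; right; exact ⟨rfl, by omega⟩

lemma F_ne (t : ℕ) : F t ≠ 5 := by
  obtain ⟨j, ⟨h, h1⟩ | ⟨h, h1⟩⟩ := cases_t t
  · obtain ⟨a, b, c, d, -⟩ := F0 h (F_B j)
    have e := F_B j
    rcases h1 with rfl | rfl | rfl | rfl | rfl <;> simp only [*] <;> decide
  · obtain ⟨a, b, -⟩ := F1 h (F_B j)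
    have e := F_B j
    rcases h1 with rfl | rfl | rfl <;> simp only [*] <;> decide

lemma F_zero {t : ℕ} (ht : F t = 0) : ∃ j, t = B j := by
  obtain ⟨j, ⟨h, h1⟩ | ⟨h, h1⟩⟩ := cases_t t
  · obtain ⟨a, b, c, d, -⟩ := F0 h (F_B j)
    rcases h1 with rfl | rfl | rfl | rfl | rfl
    · exact ⟨j, rfl⟩
    · rw [a] at ht; exact absurd ht (by decide)
    · rw [b] at ht; exact absurd ht (by decide)
    · rw [c] at ht; exact absurd ht (by decide)
    · rw [d] at ht; exact absurd ht (by decide)
  · obtain ⟨a, b, -⟩ := F1 h (F_B j)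
    rcases h1 with rfl | rfl | rfl
    · exact ⟨j, rfl⟩
    · rw [a] at ht; exact absurd ht (by decide)
    · rw [b] at ht; exact absurd ht (by decide)

lemma nobb (t : ℕ) : ¬ (x t = true ∧ x (t + 1) = true) := by
  induction t using Nat.strong_induction_on with
  | _ t ih =>
    rintro ⟨h1, h2⟩
    obtain ⟨j, ⟨h, h3⟩ | ⟨h, h3⟩⟩ := cases_t t
    · obtain ⟨a, b, c, d, e, -⟩ := S0 h
      rcases h3 with rfl | rfl | rfl | rfl | rfl <;> simp_all
    · obtain ⟨a, b, c, d⟩ := S1 h
      rcases h3 with rfl | rfl | rfl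
      · simp_all
      · simp_all
      · have := B_add 0 j
        rw [show B j + 2 + 1 = B (j + 1) by omega, first] at h2
        exact ih j (by simp at this; omega) ⟨h, h2⟩

lemma noa5 (t : ℕ) : ¬ (x t = false ∧ x (t + 1) = false ∧ x (t + 2) = false ∧ x (t + 3) = false ∧
    x (t + 4) = false) := by
  rintro ⟨h0, h1, h2, h3, h4⟩
  have nx : ∀ j, x (B j) = true ∨ x (B j + 3) = true := by
    intro j
    cases h : x j
    · exact Or.inr (S0 h).2.2.2.1
    · exact Or.inl (S1 h).1
  obtain ⟨j, ⟨h, h5⟩ | ⟨h, h5⟩⟩ := cases_t t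
  · obtain ⟨a, b, c, d, e, f⟩ := S0 h
    have := nx (j + 1)
    rw [f] at this
    rcases h5 with rfl | rfl | rfl | rfl | rfl <;> simp_all [add_assoc]
  · obtain ⟨a, b, c, d⟩ := S1 h
    rcases h5 with rfl | rfl | rfl <;> simp_all [add_assoc]

def Per (s p : ℕ) : Prop := ∀ t, s ≤ t → t < s + 4 * p → x (t + p) = x t

lemma F_shift {s p : ℕ} (h : Per s p) (t : ℕ) (h1 : s ≤ t) (h2 : t ≤ s + 4 * p) :
    F (t + p) = F t + (F (s + p) - F s) := by
  induction t, h1 using Nat.le_induction with
  | base => ring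
  | succ t h1 ih =>
    rw [show t + 1 + p = t + p + 1 by ring, F, F, ih (by omega), h t h1 (by omega)]
    ring

lemma zm : ∀ a d e g : ZMod 7, (e = 1 ∨ e = 3) → (g = 1 ∨ g = 3) →
    (a ≠ 5 ∧ a + d ≠ 5 ∧ a + d + d ≠ 5 ∧ a + d + d + d ≠ 5 ∧ a + d + d + d + d ≠ 5) →
    (a + e ≠ 5 ∧ a + e + d ≠ 5 ∧ a + e + d + d ≠ 5 ∧ a + e + d + d + d ≠ 5 ∧
      a + e + d + d + d + d ≠ 5) →
    (a + e + g ≠ 5 ∧ a + e + g + d ≠ 5 ∧ a + e + g + d + d ≠ 5 ∧ a + e + g + d + d + d ≠ 5 ∧
      a + e + g + d + d + d + d ≠ 5) → d = 0 := by decide +kernel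

lemma five {s p : ℕ} (h : Per s p) (t : ℕ) (h1 : s ≤ t) (h2 : t ≤ s + p) (d : ZMod 7)
    (hd : d = F (s + p) - F s) :
    F t ≠ 5 ∧ F t + d ≠ 5 ∧ F t + d + d ≠ 5 ∧ F t + d + d + d ≠ 5 ∧ F t + d + d + d + d ≠ 5 := by
  have a1 := F_shift h t h1 (by omega)
  have a2 := F_shift h (t + p) (by omega) (by omega)
  have a3 := F_shift h (t + p + p) (by omega) (by omega)
  have a4 := F_shift h (t + p + p + p) (by omega) (by omega)
  rw [← hd] at a1 a2 a3 a4
  rw [← a1, ← a2, ← a3, ← a4]
  exact ⟨F_ne _, F_ne _, F_ne _, F_ne _, F_ne _⟩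

lemma d_zero {s p : ℕ} (h : Per s p) (hp : 2 ≤ p) : F (s + p) - F s = 0 := by
  have hb : ∀ b : Bool, (if b then (3 : ZMod 7) else 1) = 1 ∨ (if b then (3 : ZMod 7) else 1) = 3 := by
    intro b; cases b <;> simp
  exact zm (F s) _ _ _ (hb (x s)) (hb (x (s + 1))) (five h s le_rfl (by omega) _ rfl)
    (five h (s + 1) (by omega) (by omega) _ rfl) (five h (s + 2) (by omega) (by omega) _ rfl)

lemma same_blk {j s t : ℕ} (h1 : B j ≤ s) (h2 : s < t) (h3 : t < B (j + 1)) : F s ≠ F t := by
  have e := F_B j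
  cases h : x j
  · obtain ⟨a, b, c, d, -⟩ := F0 h (F_B j)
    have := (S0 h).2.2.2.2.2
    obtain ⟨u, rfl⟩ : ∃ u, s = B j + u := ⟨s - B j, by omega⟩
    obtain ⟨v, rfl⟩ : ∃ v, t = B j + v := ⟨t - B j, by omega⟩
    have hv : v < 5 := by omega
    have hu : u < v := by omega
    interval_cases v <;> interval_cases u <;> simp only [add_zero, *] <;> decide
  · obtain ⟨a, b, -⟩ := F1 h (F_B j)
    have := (S1 h).2.2.2
    obtain ⟨u, rfl⟩ : ∃ u, s = B j + u := ⟨s - B j, by omega⟩
    obtain ⟨v, rfl⟩ : ∃ v, t = B j + v := ⟨t - B j, by omega⟩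
    have hv : v < 3 := by omega
    have hu : u < v := by omega
    interval_cases v <;> interval_cases u <;> simp only [add_zero, *] <;> decide

lemma B_eq {i j : ℕ} (h : x i = x j) : B (i + 1) + B j = B (j + 1) + B i := by
  rw [B_succ, B_succ, h]; ring

theorem noper (p : ℕ) : 0 < p → ∀ s, ¬ Per s p := by
  induction p using Nat.strong_induction_on with
  | _ p ih =>
    intro hp s h
    by_cases h1 : p = 1
    · subst h1
      have a0 := h s le_rfl (by omega)
      have a1 := h (s + 1) (by omega) (by omega)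
      have a2 := h (s + 2) (by omega) (by omega)
      have a3 := h (s + 3) (by omega) (by omega)
      cases hx : x s
      · exact noa5 s (by simp_all [add_assoc])
      · exact nobb s (by simp_all)
    have hd := d_zero h (by omega)
    have hF : ∀ t, s ≤ t → t ≤ s + 4 * p → F (t + p) = F t := fun t a b => by
      rw [F_shift h t a b, hd, add_zero]
    obtain ⟨j0, a0, b0⟩ := blk s
    obtain ⟨j1, a1, b1⟩ := blk (s + p)
    have hb : B (j0 + 1) ≤ s + p := by
      by_contra hc
      exact same_blk a0 (by omega : s < s + p) (by omega) (hF s le_rfl (by omega)).symm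
    have hj : j0 < j1 := by
      have : B (j0 + 1) < B (j1 + 1) := by omega
      have := B_mono.lt_iff_lt.1 this
      omega
    obtain ⟨q, rfl⟩ : ∃ q, j1 = j0 + q := ⟨j1 - j0, by omega⟩
    have base : B (j0 + q + 1) = B (j0 + 1) + p := by
      obtain ⟨i, hi⟩ := F_zero ((hF (B (j0 + 1)) (by omega) (by omega)).trans (F_B _))
      have h2 : j0 + q + 1 ≤ i := by
        have : B (j0 + q) < B i := by omega
        exact B_mono.lt_iff_lt.1 this
      have h3 := B_mono.monotone h2
      obtain ⟨u, hu⟩ : ∃ u, B (j0 + q + 1) = u + p := ⟨B (j0 + q + 1) - p, by omega⟩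
      obtain ⟨i', hi'⟩ := F_zero ((hF u (by omega) (by omega)).symm.trans (hu ▸ F_B _))
      have h4 : j0 + 1 ≤ i' := by
        have : B j0 < B i' := by omega
        exact B_mono.lt_iff_lt.1 this
      have h5 := B_mono.monotone h4
      omega
    have shift : ∀ r, B (j0 + r + 1) ≤ s + 4 * p → B (j0 + q + r + 1) = B (j0 + r + 1) + p := by
      intro r
      induction r with
      | zero => intro _; exact base
      | succ r ihr =>
        intro hr
        have m1 := B_step (j0 + r + 1)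
        have m2 : B (j0 + 1) ≤ B (j0 + r + 1) := B_mono.monotone (by omega)
        rw [← add_assoc] at hr
        have e1 := ihr (by omega)
        have e2 := h (B (j0 + r + 1)) (by omega) (by omega)
        rw [← e1, first, first] at e2
        have := B_eq e2
        rw [← add_assoc, ← add_assoc]
        omega
    obtain ⟨q, rfl⟩ : ∃ q', q = q' + 1 := ⟨q - 1, by omega⟩
    have s1 := shift q (by rw [add_assoc]; omega)
    have s2 := shift (q + 1 + q) (by rw [← add_assoc, s1, add_assoc]; omega)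
    have s3 := shift (q + 1 + (q + 1 + q)) (by
      rw [← add_assoc, s2, ← add_assoc, s1, add_assoc j0]; omega)
    have top : B (j0 + 4 * (q + 1)) ≤ s + 4 * p := by
      rw [show j0 + 4 * (q + 1) = j0 + (q + 1) + (q + 1 + (q + 1 + q)) + 1 by ring, s3,
        ← add_assoc, s2, ← add_assoc, s1, add_assoc j0]
      omega
    have hlt : q + 1 < p := by
      have := B_add (j0 + 1) (q + 1)
      rw [show j0 + 1 + (q + 1) = j0 + (q + 1) + 1 by ring, base] at this
      omega
    apply ih (q + 1) hlt (by omega) j0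
    intro t h2 h3
    by_cases ht : t = j0
    · subst ht
      obtain ⟨u, hu⟩ : ∃ u, B (t + 1) = u + 1 := ⟨B (t + 1) - 1, by omega⟩
      rw [← last t u hu.symm, ← last (t + (q + 1)) (u + p) (by omega)]
      exact h u (by omega) (by omega)
    · obtain ⟨r, rfl⟩ : ∃ r, t = j0 + r + 1 := ⟨t - j0 - 1, by omega⟩
      have m1 : B (j0 + r + 1) < B (j0 + 4 * (q + 1)) := B_mono h3
      have m2 : B (j0 + 1) ≤ B (j0 + r + 1) := B_mono.monotone (by omega)
      have e1 := shift r (by omega)
      have e2 := h (B (j0 + r + 1)) (by omega) (by omega)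
      rw [← e1, first, first] at e2
      rw [← e2]
      congr 1
      ring

theorem main : ∃ h : List Bool → List Bool, (∀ u v, h (u ++ v) = h u ++ h v) ∧
    (∃ k, 2 ≤ k ∧ ∀ w, AbFree k w → AbFree k (h w)) ∧
    (∃ u, u ≠ [] ∧ h [false] = false :: u) ∧
    Filter.Tendsto (fun n => (h^[n] [false]).length) Filter.atTop Filter.atTop ∧
    ∃ x : ℕ → Bool, (∀ n i (hi : i < (h^[n] [false]).length), x i = (h^[n] [false])[i]) ∧
      (∀ y, y ≠ [] → ¬ Factor (y ++ y ++ y ++ y ++ y) x) ∧ ¬ Factor [true, true] x := by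
  refine ⟨hh, hh_append, ⟨6, by norm_num, abfree⟩, ⟨[false, false, true, false], by simp, rfl⟩,
    ?_, x, x_eq, ?_, ?_⟩
  · exact Filter.tendsto_atTop_mono (fun n => (Nat.le_succ n).trans (W_len n)) Filter.tendsto_id
  · rintro y hy ⟨s, hs⟩
    apply noper y.length (List.length_pos_iff.2 hy) s
    intro t h1 h2
    obtain ⟨i, rfl⟩ : ∃ i, t = s + i := ⟨t - s, by omega⟩
    have l1 : i < (y ++ y ++ y ++ y).length := by simp only [List.length_append]; omega
    rw [add_assoc, hs i (by simp only [List.length_append]; omega),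
      hs (i + y.length) (by simp only [List.length_append]; omega),
      List.getElem_append_left l1]
    have e : y ++ y ++ y ++ y ++ y = y ++ (y ++ y ++ y ++ y) := by simp
    simp only [e]
    rw [List.getElem_append_right (by omega)]
    simp
  · rintro ⟨s, hs⟩
    exact nobb s ⟨hs 0 (by simp), hs 1 (by simp)⟩

end Pool.Agent.H.MP_8f8c07_co
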